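import Pool.Agent.Helper68.QC.St6

/-! # PART M of project QD: module RCH -/

set_option autoImplicit false

open MeasureTheory Set Filter Topology Complex
open scoped ContDiff ComplexConjugate ENNReal

namespace Pool.Agent.Helper22.QCM

open Pool.Agent.Helper68.QC

/-! ### linear change of variables -/

private noncomputable def mulL (a : ℂ) : ℂ →L[ℝ] ℂ := ContinuousLinearMap.mul ℝ ℂ a

private theorem det_mulL (a : ℂ) : (mulL a).det = ‖a‖ ^ 2 := by
  rw [det_eq]
  have h1 : mulL a 1 = a := by simp [mulL]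
  have h2 : mulL a I = a * I := by simp [mulL]
  rw [h1, h2, Complex.sq_norm, Complex.normSq_apply]
  simp

private theorem has_mulL (a z : ℂ) : HasFDerivAt (fun x : ℂ => a * x) (mulL a) z :=
  (mulL a).hasFDerivAt

private theorem inj_mul {a : ℂ} (ha : a ≠ 0) (S : Set ℂ) : InjOn (fun x : ℂ => a * x) S :=
  fun _ _ _ _ h => mul_left_cancel₀ ha h

private theorem cv_set {a : ℂ} (ha : a ≠ 0) {S : Set ℂ} (hS : MeasurableSet S) (g : ℂ → ℂ) :
    ∫ x in (fun z => a * z) '' S, g x = ∫ x in S, ((‖a‖ ^ 2 : ℝ) : ℂ) * g (a * x) := by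
  rw [integral_image_eq_integral_abs_det_fderiv_smul volume hS
    (fun x _ => (has_mulL a x).hasFDerivWithinAt) (inj_mul ha S) g]
  congr 1
  ext x
  rw [det_mulL, abs_of_nonneg (by positivity), Complex.real_smul]

private theorem cv_int {a : ℂ} (ha : a ≠ 0) {S : Set ℂ} (hS : MeasurableSet S) (g : ℂ → ℂ) :
    IntegrableOn g ((fun z => a * z) '' S) ↔
      IntegrableOn (fun x => ((‖a‖ ^ 2 : ℝ) : ℂ) * g (a * x)) S := by
  rw [integrableOn_image_iff_integrableOn_abs_det_fderiv_smul volume hS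
    (fun x _ => (has_mulL a x).hasFDerivWithinAt) (inj_mul ha S) g]
  have h : (fun x => |(mulL a).det| • g (a * x)) =
      fun x => ((‖a‖ ^ 2 : ℝ) : ℂ) * g (a * x) := by
    ext x
    rw [det_mulL, abs_of_nonneg (by positivity), Complex.real_smul]
  rw [h]

private theorem cv_all {a : ℂ} (ha : a ≠ 0) (g : ℂ → ℂ) :
    ∫ x, g x = ∫ x, ((‖a‖ ^ 2 : ℝ) : ℂ) * g (a * x) := by
  have h := cv_set ha MeasurableSet.univ g
  have h2 : (fun z => a * z) '' (univ : Set ℂ) = univ := by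
    rw [image_univ, range_eq_univ]
    intro y
    exact ⟨a⁻¹ * y, mul_inv_cancel_left₀ ha y⟩
  rw [h2, Measure.restrict_univ] at h
  exact h

private theorem ae_mul {a : ℂ} (ha : a ≠ 0) {p : ℂ → Prop} (h : ∀ᵐ z : ℂ, p z) :
    ∀ᵐ z : ℂ, p (a * z) := by
  have h1 : Measure.QuasiMeasurePreserving (mulL a) (volume : Measure ℂ) volume := by
    apply Measure.ContinuousLinearMap.quasiMeasurePreserving
    rw [det_mulL]
    have := norm_pos_iff.2 ha
    positivity
  exact h1.ae h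

/-! ### the cutoff -/

private noncomputable def gg (r s : ℝ) : ℝ := Real.smoothTransition s - Real.smoothTransition (s - r)

private theorem gg_smooth (r : ℝ) : ContDiff ℝ ∞ (gg r) :=
  Real.smoothTransition.contDiff.sub
    (Real.smoothTransition.contDiff.comp (contDiff_id.sub contDiff_const))

private theorem gg_neg {r s : ℝ} (hr : 0 < r) (hs : s ≤ 0) : gg r s = 0 := by
  unfold gg
  rw [Real.smoothTransition.zero_of_nonpos hs,
    Real.smoothTransition.zero_of_nonpos (by linarith), sub_zero]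

private theorem gg_far {r s : ℝ} (hr : 0 < r) (hs : r + 1 ≤ s) : gg r s = 0 := by
  unfold gg
  rw [Real.smoothTransition.one_of_one_le (by linarith),
    Real.smoothTransition.one_of_one_le (by linarith), sub_self]

private theorem gg_bd {r : ℝ} (hr : 0 < r) (s : ℝ) : 0 ≤ gg r s ∧ gg r s ≤ 1 := by
  unfold gg
  have h1 := Real.smoothTransition.monotone (show s - r ≤ s by linarith)
  have h2 := Real.smoothTransition.le_one s
  have h3 := Real.smoothTransition.nonneg (s - r)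
  constructor <;> linarith

private noncomputable def chi (r : ℝ) (z : ℂ) : ℝ := gg r (Real.log ‖z‖)

private theorem chi_small {r : ℝ} (hr : 0 < r) {z : ℂ} (hz : ‖z‖ ≤ 1) : chi r z = 0 :=
  gg_neg hr (Real.log_nonpos (norm_nonneg _) hz)

private theorem chi_big {r : ℝ} (hr : 0 < r) {z : ℂ} (hz : Real.exp (r + 1) ≤ ‖z‖) :
    chi r z = 0 := by
  apply gg_far hr
  rw [Real.le_log_iff_exp_le]
  · exact hz
  · exact (Real.exp_pos _).trans_le hz

private theorem has_log {ξ : ℂ} (hξ : ξ ≠ 0) : HasFDerivAt (fun z : ℂ => Real.log ‖z‖)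
    (Complex.reCLM.comp (mulL ξ⁻¹)) ξ := by
  have h1 : HasDerivAt (fun z : ℂ => Complex.log (z / ξ)) ξ⁻¹ ξ := by
    have h2 : HasDerivAt (fun z : ℂ => z / ξ) (1 / ξ) ξ := (hasDerivAt_id ξ).div_const ξ
    have h3 : ξ / ξ ∈ Complex.slitPlane := by
      rw [div_self hξ]
      exact Complex.one_mem_slitPlane
    have h4 := h2.clog h3
    rw [div_self hξ, div_one, one_div] at h4
    exact h4
  have h5 := h1.hasFDerivAt.restrictScalars ℝ
  have h6 := (Complex.reCLM.hasFDerivAt (x := Complex.log (ξ / ξ))).comp ξ h5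
  have h7 := h6.add_const (Real.log ‖ξ‖)
  have h8 : HasFDerivAt (fun z : ℂ => Real.log ‖z‖)
      (Complex.reCLM.comp ((ContinuousLinearMap.toSpanSingleton ℂ ξ⁻¹).restrictScalars ℝ)) ξ := by
    refine h7.congr_of_eventuallyEq ?_
    filter_upwards [isOpen_ne.mem_nhds hξ] with z hz
    show Real.log ‖z‖ = (Complex.log (z / ξ)).re + Real.log ‖ξ‖
    rw [Complex.log_re, norm_div, Real.log_div (norm_ne_zero_iff.2 hz) (norm_ne_zero_iff.2 hξ)]
    ring
  refine h8.congr_fderiv (ContinuousLinearMap.ext fun v => ?_)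
  simp [mulL, mul_comm]

private theorem chi_dz (r : ℝ) {ξ : ℂ} (hξ : ξ ≠ 0) :
    dz (fun z => (chi r z : ℂ)) ξ = ((deriv (gg r) (Real.log ‖ξ‖) : ℝ) : ℂ) / (2 * ξ) ∧
    dzb (fun z => (chi r z : ℂ)) ξ =
      ((deriv (gg r) (Real.log ‖ξ‖) : ℝ) : ℂ) / (2 * conj ξ) := by
  apply dz_of_has
  have h1 : HasDerivAt (gg r) (deriv (gg r) (Real.log ‖ξ‖)) (Real.log ‖ξ‖) :=
    ((gg_smooth r).differentiable (by simp) _).hasDerivAt
  have h2 := h1.comp_hasFDerivAt ξ (has_log hξ)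
  have h3 := (Complex.ofRealCLM.hasFDerivAt (x := gg r (Real.log ‖ξ‖))).comp ξ h2
  refine h3.congr_fderiv (ContinuousLinearMap.ext fun v => ?_)
  have h4 : conj ξ ≠ 0 := (map_ne_zero _).2 hξ
  simp only [ContinuousLinearMap.comp_apply, mulL, smul_apply, lin_apply,
    Complex.ofRealCLM_apply, Complex.reCLM_apply, ContinuousLinearMap.mul_apply', smul_eq_mul,
    Complex.ofReal_mul, Complex.re_eq_add_conj, map_mul, map_inv₀]
  field_simp

private theorem chi_smooth {r : ℝ} (hr : 0 < r) : ContDiff ℝ ∞ (chi r) := by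
  rw [contDiff_iff_contDiffAt]
  intro z
  by_cases hz : z = 0
  · have h1 : chi r =ᶠ[𝓝 z] fun _ => 0 := by
      filter_upwards [Metric.ball_mem_nhds z one_pos] with w hw
      apply chi_small hr
      rw [hz, Metric.mem_ball, dist_zero_right] at hw
      exact hw.le
    exact contDiffAt_const.congr_of_eventuallyEq h1
  · have h1 : ContDiffAt ℝ ∞ (fun z : ℂ => Real.log ‖z‖) z :=
      (contDiffAt_norm ℝ hz).log (norm_ne_zero_iff.2 hz)
    exact (gg_smooth r).contDiffAt.comp z h1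

private theorem chi_tst {r : ℝ} (hr : 0 < r) : Tst {0}ᶜ (fun z => (chi r z : ℂ)) := by
  refine ⟨Complex.ofRealCLM.contDiff.comp (chi_smooth hr), ?_, ?_⟩
  · apply HasCompactSupport.of_support_subset_isCompact
      (isCompact_closedBall (0 : ℂ) (Real.exp (r + 1)))
    intro z hz
    rw [mem_closedBall_zero_iff]
    by_contra h
    apply hz
    show (chi r z : ℂ) = 0
    rw [chi_big hr (not_le.1 h).le, Complex.ofReal_zero]
  · have h1 : tsupport (fun z => (chi r z : ℂ)) ⊆ (Metric.ball (0 : ℂ) 1)ᶜ := by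
      apply closure_minimal _ Metric.isOpen_ball.isClosed_compl
      intro z hz h
      apply hz
      rw [mem_ball_zero_iff] at h
      show (chi r z : ℂ) = 0
      rw [chi_small hr h.le, Complex.ofReal_zero]
    intro z hz h
    rw [mem_singleton_iff] at h
    apply h1 hz
    rw [h]
    exact Metric.mem_ball_self one_pos

/-! ### the residue -/

private theorem int_rad (H : ℝ → ℝ) (hH : Continuous H) (A B : ℝ) (hA : ∀ s, s < A → H s = 0)
    (hB : ∀ s, B < s → H s = 0) (Ψ : ℂ → ℂ) (hΨ : ContinuousOn Ψ {0}ᶜ) :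
    Integrable (fun ξ : ℂ => Ψ ξ * ((H (Real.log ‖ξ‖) / ‖ξ‖ ^ 2 : ℝ) : ℂ)) := by
  apply Continuous.integrable_of_hasCompactSupport
  · rw [continuous_iff_continuousAt]
    intro z
    by_cases hz : z = 0
    · have h1 : (fun ξ : ℂ => Ψ ξ * ((H (Real.log ‖ξ‖) / ‖ξ‖ ^ 2 : ℝ) : ℂ)) =ᶠ[𝓝 z]
          fun _ => 0 := by
        filter_upwards [Metric.ball_mem_nhds z (Real.exp_pos A)] with w hw
        rw [hz, mem_ball_zero_iff] at hw
        by_cases h0 : w = 0
        · simp [h0]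
        · have h2 : Real.log ‖w‖ < A := by
            rw [Real.log_lt_iff_lt_exp (norm_pos_iff.2 h0)]
            exact hw
          rw [hA _ h2]
          simp
      exact continuousAt_const.congr h1.symm
    · have h0 : ‖z‖ ≠ 0 := norm_ne_zero_iff.2 hz
      have h1 : ContinuousAt Ψ z := hΨ.continuousAt (isOpen_ne.mem_nhds hz)
      have h2 : ContinuousAt (fun ξ : ℂ => Real.log ‖ξ‖) z :=
        continuous_norm.continuousAt.log h0
      have h3 : ContinuousAt (fun ξ : ℂ => H (Real.log ‖ξ‖) / ‖ξ‖ ^ 2) z :=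
        (hH.continuousAt.comp h2).div (continuous_norm.continuousAt.pow 2) (pow_ne_zero 2 h0)
      exact h1.mul (Complex.continuous_ofReal.continuousAt.comp h3)
  · apply HasCompactSupport.of_support_subset_isCompact
      (isCompact_closedBall (0 : ℂ) (Real.exp B))
    intro z hz
    rw [mem_closedBall_zero_iff]
    by_contra h
    apply hz
    have h1 := not_le.1 h
    have h2 : B < Real.log ‖z‖ := by
      rw [Real.lt_log_iff_exp_lt ((Real.exp_pos B).trans h1)]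
      exact h1
    show Ψ z * ((H (Real.log ‖z‖) / ‖z‖ ^ 2 : ℝ) : ℂ) = 0
    rw [hB _ h2]
    simp

/-- derivative of the transition function -/
private noncomputable def dR (s : ℝ) : ℝ := deriv Real.smoothTransition s

private theorem dR_cont : Continuous dR :=
  (Real.smoothTransition.contDiff (n := 1)).continuous_deriv le_rfl

private theorem dR_neg (s : ℝ) (hs : s < 0) : dR s = 0 := by
  have h1 : Real.smoothTransition =ᶠ[𝓝 s] fun _ => 0 := by
    filter_upwards [isOpen_Iio.mem_nhds hs] with x hx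
    exact Real.smoothTransition.zero_of_nonpos (le_of_lt hx)
  unfold dR
  rw [h1.deriv_eq, deriv_const]

private theorem dR_big (s : ℝ) (hs : 1 < s) : dR s = 0 := by
  have h1 : Real.smoothTransition =ᶠ[𝓝 s] fun _ => 1 := by
    filter_upwards [isOpen_Ioi.mem_nhds hs] with x hx
    exact Real.smoothTransition.one_of_one_le (le_of_lt hx)
  unfold dR
  rw [h1.deriv_eq, deriv_const]

private theorem dR_nonneg (s : ℝ) : 0 ≤ dR s := Real.smoothTransition.monotone.deriv_nonneg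

private theorem has_R (s : ℝ) : HasDerivAt Real.smoothTransition (dR s) s :=
  ((Real.smoothTransition.contDiff (n := 1)).differentiable (by simp) s).hasDerivAt

private theorem deriv_gg (r s : ℝ) : deriv (gg r) s = dR s - dR (s - r) := by
  have h1 : HasDerivAt (fun x => Real.smoothTransition (x - r)) (dR (s - r)) s := by
    have h2 := (has_R (s - r)).comp s ((hasDerivAt_id s).sub_const r)
    rw [mul_one] at h2
    exact h2
  exact ((has_R s).sub h1).deriv

private theorem int_dR : ∫ y in Ioi (0 : ℝ), dR (Real.log y) * y⁻¹ = 1 := by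
  have h1 : ∫ y in Ioi (0 : ℝ), dR (Real.log y) * y⁻¹ =
      1 - Real.smoothTransition (Real.log 0) := by
    apply integral_Ioi_of_hasDerivAt_of_nonneg (g := fun y => Real.smoothTransition (Real.log y))
    · have h2 : (fun y => Real.smoothTransition (Real.log y)) =ᶠ[𝓝 (0 : ℝ)] fun _ => 0 := by
        filter_upwards [Metric.ball_mem_nhds (0 : ℝ) one_pos] with y hy
        rw [mem_ball_zero_iff, Real.norm_eq_abs] at hy
        apply Real.smoothTransition.zero_of_nonpos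
        rw [← Real.log_abs]
        exact Real.log_nonpos (abs_nonneg _) hy.le
      exact (continuousAt_const.congr h2.symm).continuousWithinAt
    · intro x hx
      exact (has_R (Real.log x)).comp x (Real.hasDerivAt_log (ne_of_gt hx))
    · intro x hx
      exact mul_nonneg (dR_nonneg _) (inv_nonneg.2 (le_of_lt hx))
    · have h2 : (fun y => Real.smoothTransition (Real.log y)) =ᶠ[atTop] fun _ => 1 := by
        filter_upwards [eventually_ge_atTop (Real.exp 1)] with y hy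
        apply Real.smoothTransition.one_of_one_le
        rw [Real.le_log_iff_exp_le ((Real.exp_pos 1).trans_le hy)]
        exact hy
      exact tendsto_const_nhds.congr' h2.symm
  rw [h1, Real.log_zero, Real.smoothTransition.zero, sub_zero]

private theorem int_W : ∫ ξ : ℂ, dR (Real.log ‖ξ‖) / ‖ξ‖ ^ 2 = 2 * Real.pi := by
  have h1 := integral_fun_norm_addHaar (volume : Measure ℂ)
    (fun y : ℝ => dR (Real.log y) / y ^ 2)
  rw [h1, Complex.finrank_real_complex]
  have h2 : ∫ y in Ioi (0 : ℝ), y ^ (2 - 1) • (dR (Real.log y) / y ^ 2) = 1 := by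
    rw [← int_dR]
    apply setIntegral_congr_fun measurableSet_Ioi
    intro y hy
    have hy0 : y ≠ 0 := ne_of_gt hy
    show y ^ 1 * (dR (Real.log y) / y ^ 2) = dR (Real.log y) * y⁻¹
    field_simp
  rw [h2]
  have h3 : (volume : Measure ℂ).real (Metric.ball 0 1) = Real.pi := by
    rw [Measure.real, Complex.volume_ball]
    simp
  rw [h3]
  simp

private theorem key (l : ℂ) (κ : ℂ) (Ψ : ℂ → ℂ) (hΨ : ContinuousOn Ψ {0}ᶜ)
    (hper : ∀ ξ, ξ ≠ 0 → Ψ (Complex.exp l * ξ) = Ψ ξ + κ) :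
    ∫ ξ, Ψ ξ * ((deriv (gg l.re) (Real.log ‖ξ‖) / ‖ξ‖ ^ 2 : ℝ) : ℂ) = -(2 * Real.pi * κ) := by
  set c := Complex.exp l with hc
  have hc0 : c ≠ 0 := Complex.exp_ne_zero l
  have hcn : ‖c‖ = Real.exp l.re := Complex.norm_exp l
  have i1 : Integrable (fun ξ : ℂ => Ψ ξ * ((dR (Real.log ‖ξ‖) / ‖ξ‖ ^ 2 : ℝ) : ℂ)) :=
    int_rad dR dR_cont 0 1 dR_neg dR_big Ψ hΨ
  have i2 : Integrable (fun ξ : ℂ => Ψ ξ * ((dR (Real.log ‖ξ‖ - l.re) / ‖ξ‖ ^ 2 : ℝ) : ℂ)) :=
    int_rad (fun s => dR (s - l.re)) (dR_cont.comp (continuous_id.sub continuous_const)) l.re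
      (l.re + 1) (fun s hs => dR_neg _ (by linarith)) (fun s hs => dR_big _ (by linarith)) Ψ hΨ
  have i3 : Integrable (fun ξ : ℂ => κ * ((dR (Real.log ‖ξ‖) / ‖ξ‖ ^ 2 : ℝ) : ℂ)) :=
    int_rad dR dR_cont 0 1 dR_neg dR_big (fun _ => κ) continuousOn_const
  have e1 : ∫ ξ, Ψ ξ * ((deriv (gg l.re) (Real.log ‖ξ‖) / ‖ξ‖ ^ 2 : ℝ) : ℂ) =
      (∫ ξ, Ψ ξ * ((dR (Real.log ‖ξ‖) / ‖ξ‖ ^ 2 : ℝ) : ℂ)) -
        ∫ ξ, Ψ ξ * ((dR (Real.log ‖ξ‖ - l.re) / ‖ξ‖ ^ 2 : ℝ) : ℂ) := by
    rw [← integral_sub i1 i2]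
    congr 1
    ext ξ
    rw [deriv_gg]
    push_cast
    ring
  have e2 : ∫ ξ, Ψ ξ * ((dR (Real.log ‖ξ‖ - l.re) / ‖ξ‖ ^ 2 : ℝ) : ℂ) =
      (∫ ξ, Ψ ξ * ((dR (Real.log ‖ξ‖) / ‖ξ‖ ^ 2 : ℝ) : ℂ)) +
        ∫ ξ : ℂ, κ * ((dR (Real.log ‖ξ‖) / ‖ξ‖ ^ 2 : ℝ) : ℂ) := by
    rw [cv_all hc0, ← integral_add i1 i3]
    congr 1
    ext ξ
    by_cases h0 : ξ = 0
    · simp [h0]
    · have h1 : ‖ξ‖ ≠ 0 := norm_ne_zero_iff.2 h0
      have h2 : Real.log ‖c * ξ‖ - l.re = Real.log ‖ξ‖ := by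
        rw [norm_mul, hcn, Real.log_mul (Real.exp_pos _).ne' h1, Real.log_exp]
        ring
      rw [h2, hper ξ h0, norm_mul]
      have h3 : ((‖c‖ : ℝ) : ℂ) ≠ 0 := by
        rw [Complex.ofReal_ne_zero]
        exact norm_ne_zero_iff.2 hc0
      have h4 : ((‖ξ‖ : ℝ) : ℂ) ≠ 0 := by
        rw [Complex.ofReal_ne_zero]
        exact h1
      push_cast
      field_simp
  have e3 : ∫ ξ : ℂ, κ * ((dR (Real.log ‖ξ‖) / ‖ξ‖ ^ 2 : ℝ) : ℂ) = κ * (2 * Real.pi) := by
    rw [integral_const_mul, integral_complex_ofReal, int_W]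
    push_cast
    ring
  rw [e1, e2, e3]
  ring

/-! ### the unfolding -/

private theorem sum_gg (r s : ℝ) (N : ℕ) :
    ∑ j ∈ Finset.range (2 * N + 1), gg r (s + ((j : ℝ) - N) * r) =
      Real.smoothTransition (s + N * r) - Real.smoothTransition (s - (N + 1) * r) := by
  have h1 : ∀ j ∈ Finset.range (2 * N + 1), gg r (s + ((j : ℝ) - N) * r) =
      (fun j : ℕ => Real.smoothTransition (s + ((j : ℝ) - N - 1) * r)) (j + 1) -
        (fun j : ℕ => Real.smoothTransition (s + ((j : ℝ) - N - 1) * r)) j := by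
    intro j _
    unfold gg
    congr 2
    · push_cast
      ring
    · push_cast
      ring
  rw [Finset.sum_congr rfl h1,
    Finset.sum_range_sub (fun j : ℕ => Real.smoothTransition (s + ((j : ℝ) - N - 1) * r))]
  congr 2
  · push_cast
    ring
  · push_cast
    ring

/-- the integers between `-N` and `N` -/
private def TT (N : ℕ) : Finset ℤ := (Finset.range (2 * N + 1)).image (fun j : ℕ => (j : ℤ) - N)

private theorem mem_TT (N : ℕ) (n : ℤ) : n ∈ TT N ↔ -(N : ℤ) ≤ n ∧ n ≤ N := by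
  unfold TT
  rw [Finset.mem_image]
  constructor
  · rintro ⟨j, hj, rfl⟩
    rw [Finset.mem_range] at hj
    constructor <;> omega
  · rintro ⟨h1, h2⟩
    refine ⟨(n + N).toNat, ?_, ?_⟩
    · rw [Finset.mem_range]
      omega
    · rw [Int.toNat_of_nonneg (by omega)]
      ring

private theorem log_pow {l : ℂ} (n : ℤ) {ξ : ℂ} (hξ : ξ ≠ 0) :
    Real.log ‖Complex.exp l ^ n * ξ‖ = Real.log ‖ξ‖ + n * l.re := by
  rw [norm_mul, norm_zpow, Complex.norm_exp, Real.log_mul, Real.log_zpow, Real.log_exp]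
  · ring
  · exact zpow_ne_zero _ (Real.exp_pos _).ne'
  · exact norm_ne_zero_iff.2 hξ

private theorem sum_TT {l : ℂ} {ξ : ℂ} (hξ : ξ ≠ 0) (N : ℕ)
    (h1 : 1 ≤ Real.log ‖ξ‖ + N * l.re) (h2 : Real.log ‖ξ‖ - (N + 1) * l.re ≤ 0) :
    ∑ n ∈ TT N, chi l.re (Complex.exp l ^ n * ξ) = 1 := by
  unfold TT
  rw [Finset.sum_image (fun a _ b _ h => by
    have h' : (a : ℤ) - N = (b : ℤ) - N := h
    omega)]
  have h3 : ∀ j ∈ Finset.range (2 * N + 1),
      chi l.re (Complex.exp l ^ ((j : ℤ) - N) * ξ) =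
        gg l.re (Real.log ‖ξ‖ + ((j : ℝ) - N) * l.re) := by
    intro j _
    unfold chi
    rw [log_pow _ hξ]
    push_cast
    rfl
  rw [Finset.sum_congr rfl h3, sum_gg, Real.smoothTransition.one_of_one_le h1,
    Real.smoothTransition.zero_of_nonpos h2, sub_zero]

private theorem chi_zero_of {l : ℂ} {ξ : ℂ} (hξ : ξ ≠ 0) (hl : 0 < l.re) (N : ℕ)
    (h1 : l.re + 1 ≤ Real.log ‖ξ‖ + N * l.re) (h2 : Real.log ‖ξ‖ - N * l.re ≤ 0)
    (n : ℤ) (hn : n ∉ TT N) : chi l.re (Complex.exp l ^ n * ξ) = 0 := by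
  unfold chi
  rw [log_pow _ hξ]
  rw [mem_TT] at hn
  by_cases h3 : n ≤ N
  · have h4 : n < -(N : ℤ) := by
      by_contra h5
      exact hn ⟨not_lt.1 h5, h3⟩
    apply gg_neg hl
    have h5 : (n : ℝ) ≤ -(N : ℝ) := by exact_mod_cast h4.le
    nlinarith
  · have h4 : (N : ℤ) < n := not_le.1 h3
    apply gg_far hl
    have h5 : (N : ℝ) ≤ (n : ℝ) := by exact_mod_cast h4.le
    nlinarith

private theorem hasSum_chi {l : ℂ} (hl : 0 < l.re) {ξ : ℂ} (hξ : ξ ≠ 0) :
    HasSum (fun n : ℤ => chi l.re (Complex.exp l ^ n * ξ)) 1 := by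
  obtain ⟨N, hN⟩ := exists_nat_ge ((|Real.log ‖ξ‖| + l.re + 1) / l.re)
  rw [div_le_iff₀ hl] at hN
  have h1 := neg_abs_le (Real.log ‖ξ‖)
  have h2 := le_abs_self (Real.log ‖ξ‖)
  rw [← sum_TT hξ N (by linarith) (by nlinarith)]
  exact hasSum_sum_of_ne_finset_zero (chi_zero_of hξ hl N (by linarith) (by linarith))

private theorem ann_meas (l : ℂ) : MeasurableSet (ann l) :=
  (measurableSet_le measurable_const measurable_norm).inter
    (measurableSet_lt measurable_norm measurable_const)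

private theorem inv_pow' {c : ℂ} (hc : c ≠ 0) (f : ℂ → ℂ)
    (h : ∀ᵐ ξ : ℂ, f (c * ξ) * ((‖c‖ ^ 2 : ℝ) : ℂ) = f ξ) (n : ℤ) :
    ∀ᵐ ξ : ℂ, f (c ^ n * ξ) * ((‖c ^ n‖ ^ 2 : ℝ) : ℂ) = f ξ := by
  induction n using Int.induction_on with
  | zero =>
    filter_upwards with ξ
    simp
  | succ n ih =>
    have h1 := ae_mul (zpow_ne_zero (n : ℤ) hc) h
    filter_upwards [ih, h1] with ξ h2 h3
    have h4 : c ^ ((n : ℤ) + 1) * ξ = c * (c ^ (n : ℤ) * ξ) := by
      rw [zpow_add_one₀ hc]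
      ring
    have h5 : ‖c ^ ((n : ℤ) + 1)‖ = ‖c‖ * ‖c ^ (n : ℤ)‖ := by
      rw [zpow_add_one₀ hc, norm_mul, mul_comm]
    rw [h4, h5]
    rw [← h2, ← h3]
    push_cast
    ring
  | pred n ih =>
    have h1 := ae_mul (zpow_ne_zero (-(n : ℤ) - 1) hc) h
    filter_upwards [ih, h1] with ξ h2 h3
    have h6 : c ^ (-(n : ℤ)) = c * c ^ (-(n : ℤ) - 1) := by
      rw [zpow_sub_one₀ hc]
      field_simp
    have h4 : c * (c ^ (-(n : ℤ) - 1) * ξ) = c ^ (-(n : ℤ)) * ξ := by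
      rw [h6]
      ring
    rw [h4] at h3
    rw [← h2, ← h3]
    have h5 : ‖c ^ (-(n : ℤ))‖ = ‖c‖ * ‖c ^ (-(n : ℤ) - 1)‖ := by
      rw [h6, norm_mul]
    rw [h5]
    push_cast
    ring

private theorem mem_P {l : ℂ} (n : ℤ) (ξ : ℂ) :
    ξ ∈ (fun z => Complex.exp l ^ n * z) '' ann l ↔
      ξ ≠ 0 ∧ n * l.re ≤ Real.log ‖ξ‖ ∧ Real.log ‖ξ‖ < (n + 1) * l.re := by
  have hc : Complex.exp l ≠ 0 := Complex.exp_ne_zero l
  have hann : ∀ z : ℂ, z ∈ ann l ↔ z ≠ 0 ∧ 0 ≤ Real.log ‖z‖ ∧ Real.log ‖z‖ < l.re := by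
    intro z
    constructor
    · rintro ⟨h1, h2⟩
      have h3 : (0 : ℝ) < ‖z‖ := by linarith
      exact ⟨norm_pos_iff.1 h3, Real.log_nonneg h1, (Real.log_lt_iff_lt_exp h3).2 h2⟩
    · rintro ⟨h0, h1, h2⟩
      have h3 : (0 : ℝ) < ‖z‖ := norm_pos_iff.2 h0
      exact ⟨(Real.log_nonneg_iff h3).1 h1, (Real.log_lt_iff_lt_exp h3).1 h2⟩
  constructor
  · rintro ⟨z, hz, rfl⟩
    obtain ⟨h0, h1, h2⟩ := (hann z).1 hz
    refine ⟨mul_ne_zero (zpow_ne_zero n hc) h0, ?_, ?_⟩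
    · show (n : ℝ) * l.re ≤ Real.log ‖Complex.exp l ^ n * z‖
      rw [log_pow n h0]
      linarith
    · show Real.log ‖Complex.exp l ^ n * z‖ < (n + 1) * l.re
      rw [log_pow n h0]
      linarith
  · rintro ⟨h0, h1, h2⟩
    refine ⟨Complex.exp l ^ (-n) * ξ, ?_, ?_⟩
    · rw [hann]
      refine ⟨mul_ne_zero (zpow_ne_zero _ hc) h0, ?_, ?_⟩
      · rw [log_pow _ h0]
        push_cast
        linarith
      · rw [log_pow _ h0]
        push_cast
        linarith
    · show Complex.exp l ^ n * (Complex.exp l ^ (-n) * ξ) = ξ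
      rw [← mul_assoc, ← zpow_add₀ hc, add_neg_cancel, zpow_zero, one_mul]

private theorem P_meas (l : ℂ) (n : ℤ) :
    MeasurableSet ((fun z => Complex.exp l ^ n * z) '' ann l) := by
  have h1 : (fun z => Complex.exp l ^ n * z) '' ann l =
      {ξ : ℂ | ξ ≠ 0} ∩ ({ξ : ℂ | n * l.re ≤ Real.log ‖ξ‖} ∩
        {ξ : ℂ | Real.log ‖ξ‖ < (n + 1) * l.re}) := by
    ext ξ
    rw [mem_P]
    rfl
  rw [h1]
  have h2 : Measurable fun ξ : ℂ => Real.log ‖ξ‖ := Real.measurable_log.comp measurable_norm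
  exact isOpen_ne.measurableSet.inter ((measurableSet_le measurable_const h2).inter
    (measurableSet_lt h2 measurable_const))

private theorem unfold_f {l : ℂ} (hl : 0 < l.re) (f : ℂ → ℂ) (hf : IntegrableOn f (ann l))
    (hinv : ∀ᵐ ξ : ℂ, f (Complex.exp l * ξ) * ((‖Complex.exp l‖ ^ 2 : ℝ) : ℂ) = f ξ) :
    Integrable (fun ξ => (chi l.re ξ : ℂ) * f ξ) ∧
      ∫ ξ, (chi l.re ξ : ℂ) * f ξ = ∫ ξ in ann l, f ξ := by
  have hc : Complex.exp l ≠ 0 := Complex.exp_ne_zero l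
  obtain ⟨N, hN⟩ := exists_nat_ge ((l.re + 1) / l.re)
  rw [div_le_iff₀ hl] at hN
  have hcont : Continuous fun ξ : ℂ => (chi l.re ξ : ℂ) :=
    Complex.continuous_ofReal.comp (chi_smooth hl).continuous
  have hb : ∀ ξ : ℂ, ‖(chi l.re ξ : ℂ)‖ ≤ 1 := by
    intro ξ
    rw [Complex.norm_real, Real.norm_eq_abs]
    have h : 0 ≤ chi l.re ξ ∧ chi l.re ξ ≤ 1 := gg_bd hl (Real.log ‖ξ‖)
    rw [abs_of_nonneg h.1]
    exact h.2
  have hcn : ∀ n : ℤ, Continuous fun ξ : ℂ => (chi l.re (Complex.exp l ^ n * ξ) : ℂ) :=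
    fun n => hcont.comp (continuous_const.mul continuous_id)
  have J1 : ∀ n : ℤ, IntegrableOn (fun ξ => (chi l.re (Complex.exp l ^ n * ξ) : ℂ) * f ξ)
      (ann l) := by
    intro n
    exact Integrable.bdd_mul (c := 1) hf (hcn n).aestronglyMeasurable
      (Filter.Eventually.of_forall fun ξ => hb _)
  have J2 : ∀ n : ℤ, (fun ξ => ((‖Complex.exp l ^ n‖ ^ 2 : ℝ) : ℂ) *
      ((chi l.re (Complex.exp l ^ n * ξ) : ℂ) * f (Complex.exp l ^ n * ξ))) =ᵐ[volume.restrict
        (ann l)] fun ξ => (chi l.re (Complex.exp l ^ n * ξ) : ℂ) * f ξ := by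
    intro n
    filter_upwards [ae_restrict_of_ae (inv_pow' hc f hinv n)] with ξ h1
    rw [← h1]
    ring
  have J3 : ∀ n : ℤ, IntegrableOn (fun ξ => (chi l.re ξ : ℂ) * f ξ)
      ((fun z => Complex.exp l ^ n * z) '' ann l) := by
    intro n
    rw [cv_int (zpow_ne_zero n hc) (ann_meas l)]
    exact (J1 n).congr (J2 n).symm
  have J4 : ∀ n : ℤ, ∫ ξ in (fun z => Complex.exp l ^ n * z) '' ann l,
      (chi l.re ξ : ℂ) * f ξ =
        ∫ ξ in ann l, (chi l.re (Complex.exp l ^ n * ξ) : ℂ) * f ξ := by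
    intro n
    rw [cv_set (zpow_ne_zero n hc) (ann_meas l)]
    exact integral_congr_ae (J2 n)
  have J5 : (fun ξ => (chi l.re ξ : ℂ) * f ξ) = fun ξ => ∑ n ∈ TT N,
      ((fun z => Complex.exp l ^ n * z) '' ann l).indicator
        (fun ξ => (chi l.re ξ : ℂ) * f ξ) ξ := by
    ext ξ
    by_cases h0 : chi l.re ξ = 0
    · symm
      rw [h0]
      rw [Finset.sum_eq_zero]
      · simp
      · intro n _
        by_cases h1 : ξ ∈ (fun z => Complex.exp l ^ n * z) '' ann l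
        · rw [indicator_of_mem h1, h0]
          simp
        · rw [indicator_of_notMem h1]
    · have h1 : 1 < ‖ξ‖ := by
        by_contra h
        exact h0 (chi_small hl (not_lt.1 h))
      have h2 : ‖ξ‖ < Real.exp (l.re + 1) := by
        by_contra h
        exact h0 (chi_big hl (not_lt.1 h))
      have h3 : (0 : ℝ) < ‖ξ‖ := by linarith
      have h4 : ξ ≠ 0 := norm_pos_iff.1 h3
      have h5 : 0 < Real.log ‖ξ‖ := Real.log_pos h1
      have h6 : Real.log ‖ξ‖ < l.re + 1 := (Real.log_lt_iff_lt_exp h3).2 h2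
      have h7 : (⌊Real.log ‖ξ‖ / l.re⌋ : ℝ) * l.re ≤ Real.log ‖ξ‖ := by
        rw [← le_div_iff₀ hl]
        exact Int.floor_le _
      have h8 : Real.log ‖ξ‖ < ((⌊Real.log ‖ξ‖ / l.re⌋ : ℝ) + 1) * l.re := by
        rw [← div_lt_iff₀ hl]
        exact Int.lt_floor_add_one _
      have h9 : ⌊Real.log ‖ξ‖ / l.re⌋ ∈ TT N := by
        rw [mem_TT]
        constructor
        · have : 0 ≤ ⌊Real.log ‖ξ‖ / l.re⌋ := Int.floor_nonneg.2 (by positivity)
          omega
        · have h10 : Real.log ‖ξ‖ / l.re ≤ N := by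
            rw [div_le_iff₀ hl]
            linarith
          have h11 := Int.floor_le (Real.log ‖ξ‖ / l.re)
          exact_mod_cast h11.trans h10
      rw [Finset.sum_eq_single (⌊Real.log ‖ξ‖ / l.re⌋)]
      · rw [indicator_of_mem ((mem_P _ ξ).2 ⟨h4, h7, h8⟩)]
      · intro m _ hm
        apply indicator_of_notMem
        rw [mem_P]
        rintro ⟨-, h10, h11⟩
        apply hm
        symm
        rw [Int.floor_eq_iff, le_div_iff₀ hl, div_lt_iff₀ hl]
        exact ⟨h10, h11⟩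
      · intro h
        exact absurd h9 h
  have J6 : ∀ n ∈ TT N, Integrable (((fun z => Complex.exp l ^ n * z) '' ann l).indicator
        (fun ξ => (chi l.re ξ : ℂ) * f ξ)) :=
    fun n _ => (integrable_indicator_iff (P_meas l n)).2 (J3 n)
  constructor
  · rw [J5]
    exact integrable_finsetSum _ J6
  · rw [J5, integral_finsetSum _ J6]
    have J7 : ∀ n ∈ TT N, ∫ ξ, ((fun z => Complex.exp l ^ n * z) '' ann l).indicator
        (fun ξ => (chi l.re ξ : ℂ) * f ξ) ξ =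
          ∫ ξ in ann l, (chi l.re (Complex.exp l ^ n * ξ) : ℂ) * f ξ := by
      intro n _
      rw [integral_indicator (P_meas l n), J4]
    rw [Finset.sum_congr rfl J7, ← integral_finsetSum _ (fun n _ => J1 n)]
    apply setIntegral_congr_fun (ann_meas l)
    rintro ξ ⟨h1, h2⟩
    have h3 : (0 : ℝ) < ‖ξ‖ := by linarith
    have h4 : ξ ≠ 0 := norm_pos_iff.1 h3
    have h5 := Real.log_nonneg h1
    have h6 : Real.log ‖ξ‖ < l.re := (Real.log_lt_iff_lt_exp h3).2 h2
    have h7 := sum_TT (l := l) h4 N (by linarith) (by nlinarith)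
    show ∑ n ∈ TT N, (chi l.re (Complex.exp l ^ n * ξ) : ℂ) * f ξ = f ξ
    rw [← Finset.sum_mul, ← Complex.ofReal_sum, h7, Complex.ofReal_one, one_mul]

theorem pRCH : Pool.Agent.Helper68.QC.StRCH := by
  intro l hl
  refine ⟨chi l.re, chi_tst hl, fun z => gg_bd hl _, ?_, fun f => unfold_f hl f,
    fun ξ hξ => hasSum_chi hl hξ⟩
  intro κ Ψ hΨ hper
  have h1 := key l κ Ψ hΨ hper
  have h2 : ∀ D : ℂ → ℂ, (∀ ξ, D ξ = ((deriv (gg l.re) (Real.log ‖ξ‖) / ‖ξ‖ ^ 2 : ℝ) : ℂ) / 2) →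
      ∫ ξ, Ψ ξ * D ξ = -(Real.pi * κ) := by
    intro D hD
    have h3 : (fun ξ => Ψ ξ * D ξ) = fun ξ => (1 / 2 : ℂ) *
        (Ψ ξ * ((deriv (gg l.re) (Real.log ‖ξ‖) / ‖ξ‖ ^ 2 : ℝ) : ℂ)) := by
      ext ξ
      rw [hD]
      ring
    rw [h3, integral_const_mul, h1]
    ring
  have h5 : ∀ ξ : ℂ, conj ξ * ξ = ((‖ξ‖ ^ 2 : ℝ) : ℂ) := by
    intro ξ
    rw [mul_comm, Complex.mul_conj, Complex.normSq_eq_norm_sq]
  constructor
  · apply h2
    intro ξ
    by_cases h0 : ξ = 0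
    · simp [h0]
    · rw [(chi_dz l.re h0).2, Complex.ofReal_div, ← h5]
      have h4 : conj ξ ≠ 0 := (map_ne_zero _).2 h0
      field_simp
  · apply h2
    intro ξ
    by_cases h0 : ξ = 0
    · simp [h0]
    · rw [(chi_dz l.re h0).1, Complex.ofReal_div, ← h5]
      have h4 : conj ξ ≠ 0 := (map_ne_zero _).2 h0
      field_simp

end Pool.Agent.Helper22.QCM
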